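import Pool.Agent.Y667.BKP.Main

/-!
# Galois invariants of `V_p W` for curves with finitely many points
-/

set_option autoImplicit false

open NumberField

namespace Pool.Agent.Q274.XL

open WeierstrassCurve
open scoped Classical
open Pool.Agent.TH841.SH.D (Gal act Pt)
open Pool.Agent.Y667.BKP (PSeq IsV H1f exists_rat)

/-- If `W(F)` is finite then the Galois invariants of `V_p W` are zero. -/
lemma h0_zero {p : ℕ} (hp : p.Prime) {F : Type} [Field F] [NumberField F] {W : WeierstrassCurve F}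
    (hfin : Finite W.toAffine.Point) : ∀ x : PSeq W, IsV p W x →
      (∀ (σ : Gal F) (n : ℕ), act W σ.toAlgHom (x n) = x n) → ∀ n, x n = 0 := by
  intro x hx hfix n
  obtain ⟨j, -, -, hj⟩ := exists_rat W
  obtain ⟨N, hN⟩ : ∃ N : ℕ, N = Nat.card W.toAffine.Point := ⟨_, rfl⟩
  have hN0 : N ≠ 0 := by
    rw [hN]
    exact Nat.card_pos.ne'
  obtain ⟨v, N', hndvd, hNv⟩ := Nat.exists_eq_pow_mul_and_not_dvd hN0 p hp.ne_one
  have hpow : ∀ k : ℕ, (p ^ k : ℕ) • x (n + k) = x n := by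
    intro k
    induction k with
    | zero => simp
    | succ k ih => rw [pow_succ, mul_smul, ← add_assoc, (hx (n + k)).1, ih]
  have h1 : N • x (n + v) = 0 := by
    obtain ⟨q, hq⟩ := hj (x (n + v)) (fun σ => hfix σ (n + v))
    rw [← hq, ← map_nsmul, hN, card_nsmul_eq_zero', map_zero]
  have h2 : N' • x n = 0 := by
    rw [← hpow v, smul_smul, mul_comm, ← hNv, h1]
  obtain ⟨m, hm⟩ := (hx n).2
  have h3 := Nat.dvd_gcd (addOrderOf_dvd_iff_nsmul_eq_zero.2 h2)
    (addOrderOf_dvd_iff_nsmul_eq_zero.2 hm)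
  have h4 : Nat.gcd N' (p ^ m) = 1 :=
    ((Nat.Prime.coprime_iff_not_dvd hp).2 hndvd).symm.pow_right m
  rw [h4, Nat.dvd_one, AddMonoid.addOrderOf_eq_one_iff] at h3
  exact h3

end Pool.Agent.Q274.XL
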