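import Pool.Agent.Y687.JQ.Fin
import Pool.Agent.Y687.JQ.Kl
import Pool.Agent.Y667.BKP.Main

/-!
# Twists of `X_0(14)` over multiquadratic fields: definitions and the theorem on finite Mordell-Weil groups

The definitions and the theorem `parts` are those of the starting file
`Pool/Agent/Results/MP_78d38b_nt/ExactProportionFields.lean` (helper library `Pool/Agent/Y687`).
-/

set_option autoImplicit false

open NumberField IsDedekindDomain Filter Topology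

namespace Pool.Agent.Q274.XF

/-- coefficients of `E_M : y² = x³ + A M x + B M`, the twist of `X_0(14)` -/
def A (M : ℤ) : ℤ := 5805 * M ^ 2

/-- coefficients of `E_M : y² = x³ + A M x + B M`, the twist of `X_0(14)` -/
def B (M : ℤ) : ℤ := -285714 * M ^ 3

/-- the curve `E_D` over `ℚ` -/
def E (D : ℤ) : WeierstrassCurve ℚ :=
  { a₁ := 0, a₂ := 0, a₃ := 0, a₄ := (A D : ℚ), a₆ := (B D : ℚ) }

/-- `E_D(ℚ)` is finite and `Ш(E_D/ℚ)` has no element of order two -/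
def RankZeroShaTwo (D : ℤ) : Prop :=
  Finite (E D).toAffine.Point ∧ ∀ x : Pool.Agent.TH841.SH.D.Sha (E D), 2 • x = 0 → x = 0

/-- primes which split completely in `ℚ(i, √2, √-7)` -/
def Split (p : ℕ) : Prop := p.Prime ∧ p % 8 = 1 ∧ (p % 7 = 1 ∨ p % 7 = 2 ∨ p % 7 = 4)

/-- primes inert in `ℚ(√2)` and in `ℚ(√-7)` -/
def Inert (q : ℕ) : Prop :=
  q.Prime ∧ (q % 8 = 3 ∨ q % 8 = 5) ∧ (q % 7 = 3 ∨ q % 7 = 5 ∨ q % 7 = 6)

/-- the class of discriminants -/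
def Adm (D : ℤ) : Prop := Squarefree D ∧ D % 4 = 1 ∧ (D % 7 = 1 ∨ D % 7 = 2 ∨ D % 7 = 4) ∧
  ∀ p : ℕ, p.Prime → (p : ℤ) ∣ D → p ≠ 3 ∧ (Split p ∨ Inert p)

/-- the good discriminants -/
def Good (D : ℤ) : Prop := Adm D ∧ RankZeroShaTwo D

/-- the pairs `(M, d)` such that `ℚ(√d_1, …, √d_n)` has degree `2ⁿ` and all numbers `M ∏_{i ∈ T} d_i`
are good up to squares -/
def GoodPair {n : ℕ} (M : ℤ) (d : Fin n → ℤ) : Prop :=
  (∀ T : Finset (Fin n), T.Nonempty → ¬ IsSquare (∏ i ∈ T, d i)) ∧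
  ∀ T : Finset (Fin n), ∃ D k : ℤ, Good D ∧ k ≠ 0 ∧ M * ∏ i ∈ T, d i = D * k ^ 2

/-- `K = ℚ(√d_1, …, √d_n)` -/
def IsMultiquadratic {n : ℕ} (d : Fin n → ℤ) (K : Type) [Field K] [NumberField K] : Prop :=
  ∃ x : Fin n → K, (∀ i, x i ^ 2 = (d i : K)) ∧ IntermediateField.adjoin ℚ (Set.range x) = ⊤

/-- the curve `E_M` over `K` -/
def EK (K : Type) [Field K] (M : ℤ) : WeierstrassCurve K := ⟨0, 0, 0, (A M : K), (B M : K)⟩

/-- the elements of 2-power order form a finite group -/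
def TwoPrimaryFinite (G : Type) [AddCommGroup G] : Prop :=
  {x : G | ∃ k : ℕ, (2 ^ k : ℕ) • x = 0}.Finite

/-- the number `q_v` of elements of the residue field of a finite place `v` of `K` -/
noncomputable def qv (K : Type) [Field K] (v : HeightOneSpectrum (𝓞 K)) : ℕ :=
  Nat.card (𝓞 K ⧸ v.asIdeal)

/-- `a_v = q_v + 1 - #E_M(k_v)`, that is `q_v` minus the number of affine points -/
noncomputable def av (K : Type) [Field K] (M : ℤ) (v : HeightOneSpectrum (𝓞 K)) : ℤ :=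
  (qv K v : ℤ) - Nat.card {z : (𝓞 K ⧸ v.asIdeal) × (𝓞 K ⧸ v.asIdeal) //
    z.2 ^ 2 = z.1 ^ 3 + (A M : 𝓞 K ⧸ v.asIdeal) * z.1 + (B M : 𝓞 K ⧸ v.asIdeal)}

open Classical in
/-- `F` is entire and is, for `Re s > 3/2`, the `L`-function of `E_M` over `K` without the Euler
factors at the places `v ∣ 42 M m` -/
def IsL (K : Type) [Field K] (M m : ℤ) (F : ℂ → ℂ) : Prop :=
  Differentiable ℂ F ∧ ∀ s : ℂ, (3 : ℝ) / 2 < s.re →
    HasProd (fun v : HeightOneSpectrum (𝓞 K) =>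
      if ((42 * M * m : ℤ) : 𝓞 K) ∈ v.asIdeal then 1 else
        (1 - (av K M v : ℂ) * (qv K v : ℂ) ^ (-s) + (qv K v : ℂ) ^ (1 - 2 * s))⁻¹) (F s)

/-- `z` is, up to squares, in the class of discriminants -/
def AdmSq (z : ℤ) : Prop := ∃ D k : ℤ, Adm D ∧ k ≠ 0 ∧ z = D * k ^ 2

/-- the fields `ℚ(√d_1, …, √d_n)` of degree `2ⁿ` with all `d_i` in the class up to squares -/
def Fam {n : ℕ} (d : Fin n → ℤ) : Prop :=
  (∀ T : Finset (Fin n), T.Nonempty → ¬ IsSquare (∏ i ∈ T, d i)) ∧ ∀ i, AdmSq (d i)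

/-- the proportion `(1 - 1/2) (1 - 1/8) (1 - 1/32) ⋯` -/
noncomputable def c : ℝ := ∏' i : ℕ, (1 - (1 / 2 : ℝ) ^ (2 * i + 1))

open Classical in
/-- the proportion of the `D ≤ X` with `P D` among those with `Adm (ε D)` -/
noncomputable def prop (ε : ℤ) (P : ℕ → Prop) (X : ℕ) : ℝ :=
  (((Finset.Icc 1 X).filter fun D : ℕ => Adm (ε * D) ∧ P D).card : ℝ) /
    (((Finset.Icc 1 X).filter fun D : ℕ => Adm (ε * D)).card : ℝ)

/-- the elements of `2`-power order of `Ш(E_M/K)` are finite in number and killed by `2ⁿ`, and the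
`L`-function of `E_M` over `K` is entire and not zero at `1` -/
def ShaFinite (K : Type) [Field K] [NumberField K] (n : ℕ) (M m : ℤ) : Prop :=
  TwoPrimaryFinite (Pool.Agent.TH841.NF.D.Sha (EK K M)) ∧
  (∀ (k : ℕ) (x : Pool.Agent.TH841.NF.D.Sha (EK K M)),
    (2 ^ k : ℕ) • x = 0 → (2 ^ n : ℕ) • x = 0) ∧
  (∃ F : ℂ → ℂ, IsL K M m F) ∧ ∀ F : ℂ → ℂ, IsL K M m F → F 1 ≠ 0

theorem prop_mono {ε : ℤ} {P Q : ℕ → Prop} (h : ∀ D, P D → Q D) (X : ℕ) :
    prop ε P X ≤ prop ε Q X := by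
  classical
  unfold prop
  refine div_le_div_of_nonneg_right ?_ (Nat.cast_nonneg _)
  refine Nat.cast_le.2 (Finset.card_le_card ?_)
  intro D hD
  rw [Finset.mem_filter] at hD ⊢
  exact ⟨hD.1, hD.2.1, h D hD.2.2⟩

/-- the parts -/
theorem parts :
    (∀ (n : ℕ) (M : ℤ) (d : Fin n → ℤ), GoodPair M d → ∀ (K : Type) [Field K] [NumberField K],
      IsMultiquadratic d K →
      Module.finrank ℚ K = 2 ^ n ∧ TwoPrimaryFinite (Pool.Agent.TH841.NF.D.Sha (EK K M)) ∧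
      (∀ (k : ℕ) (x : Pool.Agent.TH841.NF.D.Sha (EK K M)),
        (2 ^ k : ℕ) • x = 0 → (2 ^ n : ℕ) • x = 0) ∧
      Finite (EK K M).toAffine.Point ∧ (∃ F : ℂ → ℂ, IsL K M (∏ i, d i) F) ∧
      ∀ F : ℂ → ℂ, IsL K M (∏ i, d i) F → F 1 ≠ 0) ∧
    (∀ (n : ℕ) (d : Fin n → ℤ) (M : ℤ), Fam d → AdmSq M → ∀ ε : ℤ, (ε = 1 ∨ ε = -1) →
      Tendsto (prop ε fun D => GoodPair (M * (ε * D)) d) atTop (𝓝 (c ^ 2 ^ n))) ∧
    (∀ (n : ℕ) (M : ℤ) (d : Fin n → ℤ), GoodPair M d → ∀ ε : ℤ, (ε = 1 ∨ ε = -1) →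
      Tendsto (prop ε fun D => GoodPair M (Fin.snoc d (ε * D) : Fin (n + 1) → ℤ)) atTop
        (𝓝 (c ^ 2 ^ n))) ∧
    0.4194 < c ∧ c < 0.4195 := by
  classical
  have hA : ∀ D : ℤ, Adm D ↔ Y687.MQ.AdmD D := fun D => Iff.rfl
  have hG : ∀ D : ℤ, Good D ↔ (Y687.MQ.AdmD D ∧ (Y687.MQ.matD D).det ≠ 0) := by
    intro D
    unfold Good
    rw [hA]
    refine and_congr_right fun h => ?_
    rw [← Y687.JQ.rzs_iff h]
    unfold RankZeroShaTwo Y687.JQ.RZS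
    refine and_congr Iff.rfl (forall_congr' fun x => ?_)
    rw [two_nsmul]
    rfl
  have hP : ∀ {n : ℕ} (M : ℤ) (d : Fin n → ℤ), GoodPair M d ↔ (Y687.MQ.Ind d ∧ Y687.JQ.GO d M) := by
    intro n M d
    unfold GoodPair Y687.JQ.GO
    simp only [hG]
    rfl
  have hT : ∀ {n : ℕ} (M : ℤ) (d : Fin n → ℤ), GoodPair M d ↔
      (Y687.MQ.Ind d ∧ Y687.MQ.AdT Y687.MQ.ClG M d) := by
    intro n M d
    refine and_congr Iff.rfl (forall_congr' fun T => ?_)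
    constructor
    · rintro ⟨D, k, h1, hk, he⟩
      obtain ⟨P, T', h2, rfl⟩ := Y687.MQ.good_iff.1 ((hG D).1 h1)
      exact ⟨P, T', k, h2, hk, he⟩
    · rintro ⟨P, T', k, h, hk, he⟩
      exact ⟨_, k, (hG _).2 (Y687.MQ.good_iff.2 ⟨P, T', h, rfl⟩), hk, he⟩
  refine ⟨fun n M d hd K _ _ ⟨x, hx, hK⟩ => ?_, fun n d M hd hM ε hε => ?_,
    fun n M d hd ε hε => ?_, ?_⟩
  · obtain ⟨hind, h⟩ := (hT M d).1 hd
    obtain ⟨⟨F, hF, hF1⟩, hfin⟩ := Y687.MQ.field_thm (fun P T => Y687.MQ.WB_all) h hind K x hx hK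
    have hL : ∀ G : ℂ → ℂ, IsL K M (∏ i, d i) G ↔
        Y19.QT.IsLFunK K (A M) (B M) (∏ i, d i) G := by
      intro G
      have key : ∀ v : HeightOneSpectrum (𝓞 K),
          (((42 * M * ∏ i, d i : ℤ) : 𝓞 K) ∈ v.asIdeal ↔
            ((2 * (4 * A M ^ 3 + 27 * B M ^ 2) * ∏ i, d i : ℤ) : 𝓞 K) ∈ v.asIdeal) := by
        intro v
        have := v.isPrime
        constructor
        · intro h1
          have e : ((2 * (4 * A M ^ 3 + 27 * B M ^ 2) * ∏ i, d i : ℤ) : 𝓞 K) =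
              ((2 ^ 14 * 3 ^ 11 * 7 ^ 2 * M ^ 5 : ℤ) : 𝓞 K) *
                ((42 * M * ∏ i, d i : ℤ) : 𝓞 K) := by
            rw [← Int.cast_mul]
            congr 1
            unfold A B
            ring
          rw [e]
          exact Ideal.mul_mem_left _ _ h1
        · intro h1
          refine Ideal.IsPrime.mem_of_pow_mem this 15 ?_
          have e : ((42 * M * ∏ i, d i : ℤ) : 𝓞 K) ^ 15 =
              ((3 ^ 3 * 7 ^ 12 * M ^ 9 * (∏ i, d i) ^ 14 : ℤ) : 𝓞 K) *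
                ((2 * (4 * A M ^ 3 + 27 * B M ^ 2) * ∏ i, d i : ℤ) : 𝓞 K) := by
            rw [← Int.cast_mul, ← Int.cast_pow]
            congr 1
            unfold A B
            ring
          rw [e]
          exact Ideal.mul_mem_left _ _ h1
      unfold IsL Y19.QT.IsLFunK
      simp only [key]
      rfl
    obtain ⟨hs1, hs2⟩ := Y687.JQ.sha_field hind ((hP M d).1 hd).2 K hx hK
    refine ⟨?_, hs1, hs2, hfin, ⟨F, (hL F).2 hF⟩, fun G hG => ?_⟩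
    · have := Y73.QMQ1.gal_of hx hK
      rw [← IsGalois.card_aut_eq_finrank]
      exact Y73.QMQ1.card_gal hind hx hK
    · rw [Y687.MQ.isLFunK_unique ((hL G).1 hG) hF]
      exact hF1
  · have h := Y687.JQ.prop_field Y687.JQ.t_JDEN (n := n) (d := d) hd.1 hd.2 (N := M) hM hε
    refine h.congr fun X => ?_
    unfold prop
    have e1 : ((Finset.Icc 1 X).filter fun D : ℕ => Y687.MQ.AdmD (ε * D) ∧
        Y687.JQ.GO d (M * (ε * D))) =
        (Finset.Icc 1 X).filter fun D : ℕ => Adm (ε * D) ∧ GoodPair (M * (ε * D)) d := by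
      refine Finset.filter_congr fun D _ => ?_
      rw [hP, hA]
      exact ⟨fun h => ⟨h.1, hd.1, h.2⟩, fun h => ⟨h.1, h.2.2⟩⟩
    have e2 : ((Finset.Icc 1 X).filter fun D : ℕ => Y687.MQ.AdmD (ε * D)) =
        (Finset.Icc 1 X).filter fun D : ℕ => Adm (ε * D) :=
      Finset.filter_congr fun D _ => (hA _).symm
    rw [e1, e2]
  · obtain ⟨hind, h⟩ := (hP M d).1 hd
    have h := Y687.JQ.prop_ext Y687.JQ.t_JDEN hind (Y687.JQ.adS_of h) h hε
    refine h.congr fun X => ?_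
    unfold prop
    have e1 : ((Finset.Icc 1 X).filter fun D : ℕ => Y687.MQ.AdmD (ε * D) ∧
        (Y687.MQ.Ind (Fin.snoc d (ε * D) : Fin (n + 1) → ℤ) ∧
          Y687.JQ.GO (Fin.snoc d (ε * D) : Fin (n + 1) → ℤ) M)) =
        (Finset.Icc 1 X).filter fun D : ℕ => Adm (ε * D) ∧
          GoodPair M (Fin.snoc d (ε * D) : Fin (n + 1) → ℤ) := by
      refine Finset.filter_congr fun D _ => ?_
      rw [hP, hA]
    have e2 : ((Finset.Icc 1 X).filter fun D : ℕ => Y687.MQ.AdmD (ε * D)) =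
        (Finset.Icc 1 X).filter fun D : ℕ => Adm (ε * D) :=
      Finset.filter_congr fun D _ => (hA _).symm
    rw [e1, e2]
  · exact ⟨Pool.Agent.Y948.CQ.t_C2.2.2.2.1, Pool.Agent.Y948.CQ.t_C2.2.2.2.2⟩

/-- `1` is good -/
theorem good_one : Good 1 := by
  have h : Adm 1 := by
    refine ⟨squarefree_one, by norm_num, by norm_num, fun p hp hd => ?_⟩
    have h1 : (p : ℤ) ∣ ((1 : ℕ) : ℤ) := by simpa using hd
    have h2 := Int.natCast_dvd_natCast.1 h1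
    exact absurd (Nat.dvd_one.1 h2) hp.one_lt.ne'
  have hA : Y687.MQ.AdmD 1 := h
  have hS : ∀ i : Y687.MQ.SP 1, False := by
    rintro ⟨i, hi⟩
    have h3 : i ∈ (1 : ℤ).natAbs.primeFactors := (Finset.mem_filter.1 hi).1
    simp at h3
  have hE : IsEmpty (Y687.MQ.SP 1) := ⟨hS⟩
  have h4 : Y687.JQ.RZS 1 := by
    refine (Y687.JQ.rzs_iff hA).2 ?_
    rw [Matrix.det_isEmpty]
    exact one_ne_zero
  refine ⟨h, ?_⟩
  unfold RankZeroShaTwo
  unfold Y687.JQ.RZS at h4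
  refine ⟨h4.1, fun x hx => h4.2 x ?_⟩
  rw [two_nsmul] at hx
  exact hx

end Pool.Agent.Q274.XF
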